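import Mathlib
import Pool.Agent.H925R3.DD.Stubs

namespace Pool.Agent.H582R4.MOM

open Finset

/-- number of `t ∈ [1, L]` in a residue class mod `M` is at least `L / M` -/
lemma count_ge (M L : ℕ) [NeZero M] (y : ZMod M) :
    L / M ≤ ((Icc 1 L).filter (fun t : ℕ => (t : ZMod M) = y)).card := by
  have hM : 0 < M := Nat.pos_of_ne_zero (NeZero.ne M)
  have key : ∀ j ∈ range (L / M), ∃ t : ℕ, t ∈ (Icc 1 L).filter (fun t : ℕ => (t : ZMod M) = y) ∧
      M * j < t ∧ t ≤ M * (j + 1) := by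
    intro j hj
    rw [mem_range] at hj
    have hjL : M * (j + 1) ≤ L := by
      calc M * (j + 1) ≤ M * (L / M) := Nat.mul_le_mul_left _ hj
        _ ≤ L := Nat.mul_div_le L M
    by_cases hy : y = 0
    · refine ⟨M * (j + 1), ?_, ?_, le_refl _⟩
      · rw [mem_filter, mem_Icc]
        refine ⟨⟨Nat.mul_pos hM (Nat.succ_pos j), hjL⟩, ?_⟩
        rw [hy]; simp
      · exact Nat.mul_lt_mul_of_pos_left (Nat.lt_succ_self j) hM
    · have hv : 0 < y.val := by
        rw [Nat.pos_iff_ne_zero]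
        intro h
        exact hy ((ZMod.val_eq_zero y).1 h)
      have hv2 : y.val < M := ZMod.val_lt y
      refine ⟨M * j + y.val, ?_, by omega, ?_⟩
      · rw [mem_filter, mem_Icc]
        refine ⟨⟨by omega, ?_⟩, ?_⟩
        · have : M * (j + 1) = M * j + M := by ring
          omega
        · push_cast
          rw [ZMod.natCast_self, zero_mul, zero_add, ZMod.natCast_zmod_val]
      · have : M * (j + 1) = M * j + M := by ring
        omega
  choose! f hf using key
  have hinj : Set.InjOn f (range (L / M)) := by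
    intro i hi j hj hij
    have h1 := (hf i (by simpa using hi)).2
    have h2 := (hf j (by simpa using hj)).2
    rw [hij] at h1
    have a1 : M * i < M * (j + 1) := lt_of_lt_of_le h1.1 h2.2
    have a2 : M * j < M * (i + 1) := lt_of_lt_of_le h2.1 h1.2
    have b1 := Nat.lt_of_mul_lt_mul_left a1
    have b2 := Nat.lt_of_mul_lt_mul_left a2
    omega
  calc L / M = (range (L / M)).card := (card_range _).symm
    _ ≤ _ := card_le_card_of_injOn f (fun j hj => (hf j hj).1) hinj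

lemma pow_sub_pow_le (a b : ℝ) (hb : 0 ≤ b) (hab : b ≤ a) (d : ℕ) :
    a ^ d - b ^ d ≤ d * a ^ (d - 1) * (a - b) := by
  induction d with
  | zero => simp
  | succ n ih =>
    rcases Nat.eq_zero_or_pos n with h | h
    · subst h; simp
    · have ha : 0 ≤ a := hb.trans hab
      have e : a ^ (n + 1) - b ^ (n + 1) = a * (a ^ n - b ^ n) + b ^ n * (a - b) := by ring
      have h1 : b ^ n ≤ a ^ n := pow_le_pow_left₀ hb hab n
      have h2 : a * a ^ (n - 1) = a ^ n := by
        rw [← pow_succ']; congr 1; omega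
      rw [e]
      have h3 : a * (a ^ n - b ^ n) ≤ a * (n * a ^ (n - 1) * (a - b)) :=
        mul_le_mul_of_nonneg_left ih ha
      have h4 : b ^ n * (a - b) ≤ a ^ n * (a - b) :=
        mul_le_mul_of_nonneg_right h1 (by linarith)
      have h5 : a * (n * a ^ (n - 1) * (a - b)) = n * a ^ n * (a - b) := by
        rw [← h2]; ring
      simp only [Nat.add_sub_cancel]
      push_cast
      nlinarith

/-- the key cancellation -/
lemma key (d : ℕ) (U : Finset ℕ) (hU : ∀ p ∈ U, p.Prime) (L : ℕ)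
    (G : (p : ℕ) → (Fin d → ZMod p) → ℝ) (hG : ∀ p ∈ U, ∀ y, |G p y| ≤ 1)
    (p₀ : ℕ) (hp₀ : p₀ ∈ U) [NeZero p₀] (h0 : ∑ y, G p₀ y = 0) :
    |∑ t ∈ Fintype.piFinset (fun _ : Fin d => Icc 1 L), ∏ p ∈ U, G p (fun i => (t i : ZMod p))| ≤
      d * (∏ p ∈ U, (p : ℝ)) * (L : ℝ) ^ (d - 1) := by
  classical
  set a : U → ℕ := fun p => p.1 with ha
  have hcop : Pairwise (Function.onFun Nat.Coprime a) := by
    intro i j hij
    exact (Nat.coprime_primes (hU i.1 i.2) (hU j.1 j.2)).2 (fun h => hij (Subtype.ext h))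
  have : ∀ i : U, NeZero (a i) := fun i => ⟨(hU i.1 i.2).ne_zero⟩
  set M : ℕ := ∏ i, a i with hMdef
  have : NeZero M := ⟨Finset.prod_ne_zero_iff.2 fun i _ => (hU i.1 i.2).ne_zero⟩
  have hMpos : 0 < M := Nat.pos_of_ne_zero (NeZero.ne M)
  have hMR : (M : ℝ) = ∏ p ∈ U, (p : ℝ) := by
    rw [hMdef]
    push_cast
    exact Finset.prod_coe_sort U (fun p => (p : ℝ))
  let e := ZMod.prodEquivPi a hcop
  let γ : (Fin d → ZMod M) → ℝ := fun x => ∏ p : U, G p.1 (fun i => e (x i) p)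
  have hγb : ∀ x, |γ x| ≤ 1 := by
    intro x
    rw [Finset.abs_prod]
    exact Finset.prod_le_one (fun _ _ => abs_nonneg _) (fun p _ => hG p.1 p.2 _)
  have hγ0 : ∑ x, γ x = 0 := by
    let E : (Fin d → ZMod M) ≃ ((p : U) → Fin d → ZMod (a p)) :=
      (Equiv.piCongrRight fun _ => e.toEquiv).trans (Equiv.piComm _)
    have h1 : ∑ x, γ x = ∑ z : (p : U) → Fin d → ZMod (a p), ∏ p : U, G p.1 (z p) := by
      refine Fintype.sum_equiv E _ _ fun x => ?_
      rfl
    rw [h1]
    have h2 := Finset.prod_univ_sum (fun _ : U => (Finset.univ)) (fun (p : U) (y : Fin d → ZMod (a p)) => G p.1 y)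
    rw [Fintype.piFinset_univ] at h2
    rw [← h2]
    refine Finset.prod_eq_zero (mem_univ (⟨p₀, hp₀⟩ : U)) ?_
    convert h0
  have hterm : ∀ t : Fin d → ℕ, ∏ p ∈ U, G p (fun i => (t i : ZMod p)) =
      γ (fun i => (t i : ZMod M)) := by
    intro t
    rw [← Finset.prod_coe_sort U (fun p => G p (fun i => (t i : ZMod p)))]
    refine Finset.prod_congr rfl fun p _ => ?_
    congr 1
    funext i
    rw [map_natCast]
    rfl
  set T := Fintype.piFinset (fun _ : Fin d => Icc 1 L) with hT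
  let cc : (Fin d → ZMod M) → ℕ := fun x => (T.filter (fun t => (fun i => (t i : ZMod M)) = x)).card
  have hcc : ∀ x, (L / M) ^ d ≤ cc x := by
    intro x
    have h1 : T.filter (fun t => (fun i => (t i : ZMod M)) = x) =
        Fintype.piFinset (fun i => (Icc 1 L).filter (fun t : ℕ => (t : ZMod M) = x i)) := by
      ext t
      simp only [hT, mem_filter, Fintype.mem_piFinset, funext_iff]
      constructor
      · rintro ⟨h, h'⟩ i; exact ⟨h i, h' i⟩
      · intro h; exact ⟨fun i => (h i).1, fun i => (h i).2⟩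
    show (L / M) ^ d ≤ (T.filter (fun t => (fun i => (t i : ZMod M)) = x)).card
    rw [h1, Fintype.card_piFinset]
    calc (L / M) ^ d = ∏ _i : Fin d, (L / M) := by simp
      _ ≤ _ := Finset.prod_le_prod' fun i _ => count_ge M L (x i)
  have hsum : ∑ t ∈ T, γ (fun i => (t i : ZMod M)) = ∑ x, (cc x : ℝ) * γ x := by
    rw [← Finset.sum_fiberwise T (fun t => (fun i => (t i : ZMod M)) : (Fin d → ℕ) → (Fin d → ZMod M))]
    refine Finset.sum_congr rfl fun x _ => ?_
    rw [Finset.sum_congr rfl (g := fun _ => γ x)]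
    · simp [cc]
    · intro t ht
      rw [(mem_filter.1 ht).2]
  have hccsum : ∑ x, (cc x : ℝ) = (L : ℝ) ^ d := by
    have h1 : ∑ x, cc x = T.card := by
      rw [Finset.card_eq_sum_card_fiberwise (f := (fun t => (fun i => (t i : ZMod M)) : (Fin d → ℕ) → (Fin d → ZMod M))) (t := univ)]
      intro t _; simp
    have h2 : T.card = L ^ d := by
      rw [hT, Fintype.card_piFinset]; simp
    have : ((∑ x, cc x : ℕ) : ℝ) = ((L ^ d : ℕ) : ℝ) := by rw [h1, h2]
    push_cast at this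
    exact this
  simp only [hterm]
  rw [hsum]
  have h3 : ∑ x, (cc x : ℝ) * γ x = ∑ x, ((cc x : ℝ) - ((L / M : ℕ) : ℝ) ^ d) * γ x := by
    simp only [sub_mul]
    rw [Finset.sum_sub_distrib, ← Finset.mul_sum, hγ0, mul_zero, sub_zero]
  rw [h3]
  have h4 : |∑ x, ((cc x : ℝ) - ((L / M : ℕ) : ℝ) ^ d) * γ x| ≤
      ∑ x, ((cc x : ℝ) - ((L / M : ℕ) : ℝ) ^ d) := by
    refine (Finset.abs_sum_le_sum_abs _ _).trans (Finset.sum_le_sum fun x _ => ?_)
    have h5 : (0 : ℝ) ≤ (cc x : ℝ) - ((L / M : ℕ) : ℝ) ^ d := by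
      have := hcc x
      have h6 : (((L / M) ^ d : ℕ) : ℝ) ≤ (cc x : ℝ) := by exact_mod_cast this
      push_cast at h6 ⊢
      linarith
    rw [abs_mul, abs_of_nonneg h5]
    exact mul_le_of_le_one_right h5 (hγb x)
  refine h4.trans ?_
  rw [Finset.sum_sub_distrib, hccsum]
  have h7 : ∑ _x : Fin d → ZMod M, ((L / M : ℕ) : ℝ) ^ d = ((M * (L / M) : ℕ) : ℝ) ^ d := by
    rw [Finset.sum_const, Finset.card_univ, Fintype.card_fun, ZMod.card]
    simp only [Fintype.card_fin, nsmul_eq_mul]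
    push_cast
    rw [mul_pow]
  rw [h7]
  have h8 : M * (L / M) ≤ L := Nat.mul_div_le L M
  have h9 : L - M * (L / M) ≤ M := by
    have := Nat.div_add_mod L M
    have := Nat.mod_lt L hMpos
    omega
  have h10 : (L : ℝ) - ((M * (L / M) : ℕ) : ℝ) ≤ M := by
    rw [← Nat.cast_sub h8]
    exact_mod_cast h9
  have h11 := pow_sub_pow_le (L : ℝ) ((M * (L / M) : ℕ) : ℝ) (by positivity) (by exact_mod_cast h8) d
  refine h11.trans ?_
  rw [← hMR]
  calc (d : ℝ) * (L : ℝ) ^ (d - 1) * ((L : ℝ) - ((M * (L / M) : ℕ) : ℝ))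
      ≤ (d : ℝ) * (L : ℝ) ^ (d - 1) * M := mul_le_mul_of_nonneg_left h10 (by positivity)
    _ = _ := by ring

open Classical in
/-- the centred indicator -/
noncomputable def hf (d : ℕ) (α β : ℕ → Fin d → ℤ) (B : (p : ℕ) → Set (Fin d → ZMod p)) (p : ℕ)
    (y : Fin d → ZMod p) : ℝ :=
  (if (fun i => (α p i : ZMod p) * y i + (β p i : ZMod p)) ∈ B p then 1 else 0) -
    (Nat.card (B p) : ℝ) / (p : ℝ) ^ d

lemma card_B_le (d p : ℕ) [NeZero p] (B : Set (Fin d → ZMod p)) :
    (Nat.card B : ℝ) ≤ (p : ℝ) ^ d := by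
  have h := Nat.card_le_card_of_injective (Subtype.val : B → (Fin d → ZMod p))
    Subtype.val_injective
  rw [Nat.card_eq_fintype_card (α := Fin d → ZMod p), Fintype.card_fun, ZMod.card] at h
  simp only [Fintype.card_fin] at h
  exact_mod_cast h

lemma hf_abs (d : ℕ) (α β : ℕ → Fin d → ℤ) (B : (p : ℕ) → Set (Fin d → ZMod p)) (p : ℕ)
    [NeZero p] (y : Fin d → ZMod p) : |hf d α β B p y| ≤ 1 := by
  have hp : (0 : ℝ) < (p : ℝ) ^ d := by
    have : (0 : ℝ) < p := by exact_mod_cast Nat.pos_of_ne_zero (NeZero.ne p)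
    positivity
  have h1 : (Nat.card (B p) : ℝ) / (p : ℝ) ^ d ≤ 1 := by
    rw [div_le_one hp]; exact card_B_le d p (B p)
  have h2 : (0 : ℝ) ≤ (Nat.card (B p) : ℝ) / (p : ℝ) ^ d := by positivity
  unfold hf
  split_ifs
  · rw [abs_le]; constructor <;> linarith
  · rw [abs_le]; constructor <;> linarith

lemma hf_sum (d : ℕ) (α β : ℕ → Fin d → ℤ) (B : (p : ℕ) → Set (Fin d → ZMod p)) (p : ℕ)
    (hp : p.Prime) [NeZero p] (hα : ∀ i, ¬ (p : ℤ) ∣ α p i) : ∑ y, hf d α β B p y = 0 := by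
  classical
  have : Fact p.Prime := ⟨hp⟩
  have hα' : ∀ i, (α p i : ZMod p) ≠ 0 := by
    intro i h
    exact hα i ((ZMod.intCast_zmod_eq_zero_iff_dvd _ _).1 h)
  let E : (Fin d → ZMod p) ≃ (Fin d → ZMod p) :=
    Equiv.piCongrRight fun i =>
      { toFun := fun y => (α p i : ZMod p) * y + (β p i : ZMod p)
        invFun := fun z => (α p i : ZMod p)⁻¹ * (z - (β p i : ZMod p))
        left_inv := fun y => by
          have := hα' i
          field_simp
          ring
        right_inv := fun z => by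
          have := hα' i
          field_simp
          ring }
  unfold hf
  rw [Finset.sum_sub_distrib]
  have h1 : ∑ y : Fin d → ZMod p,
      (if (fun i => (α p i : ZMod p) * y i + (β p i : ZMod p)) ∈ B p then (1 : ℝ) else 0) =
      ∑ z : Fin d → ZMod p, (if z ∈ B p then (1 : ℝ) else 0) := by
    refine Fintype.sum_equiv E _ _ fun y => ?_
    rfl
  rw [h1]
  have h2 : ∑ z : Fin d → ZMod p, (if z ∈ B p then (1 : ℝ) else 0) = Nat.card (B p) := by
    rw [Finset.sum_boole]
    rw [Nat.card_eq_fintype_card, Fintype.card_subtype]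
  rw [h2, Finset.sum_const, Finset.card_univ, Fintype.card_fun, ZMod.card]
  simp only [Fintype.card_fin, nsmul_eq_mul]
  have hp' : ((p : ℝ)) ^ d ≠ 0 := by
    have : (p : ℝ) ≠ 0 := by exact_mod_cast hp.ne_zero
    positivity
  push_cast
  field_simp
  ring

theorem mom : Pool.Agent.H925R3.DD.MOM := by
  classical
  intro d S k X L η α β B hd hη hη1 hS
  have hne : ∀ p ∈ S, NeZero p := fun p hp => ⟨(hS p hp).1.ne_zero⟩
  set T := Fintype.piFinset (fun _ : Fin d => Icc 1 L) with hT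
  set h : (p : ℕ) → (Fin d → ℕ) → ℝ := fun p t => hf d α β B p (fun i => (t i : ZMod p)) with hh
  set W : (Fin d → ℕ) → ℝ := fun t => ∑ K ∈ S.powersetCard k, ∏ p ∈ K, h p t with hW
  set n := S.card with hn
  have hhabs : ∀ p ∈ S, ∀ t, |h p t| ≤ 1 := by
    intro p hp t
    have := hne p hp
    exact hf_abs d α β B p _
  -- bad points
  set bad := T.filter (fun t => ∀ p ∈ S, (fun i => ((α p i * t i + β p i : ℤ) : ZMod p)) ∈ B p)
    with hbad
  have hcard : Nat.card {t : Fin d → ℕ // (∀ i, t i ∈ Icc 1 L) ∧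
      ∀ p ∈ S, (fun i => ((α p i * t i + β p i : ℤ) : ZMod p)) ∈ B p} = bad.card := by
    have hiff : ∀ t : Fin d → ℕ, ((∀ i, t i ∈ Icc 1 L) ∧
      ∀ p ∈ S, (fun i => ((α p i * t i + β p i : ℤ) : ZMod p)) ∈ B p) ↔ t ∈ bad := by
      intro t
      rw [hbad, mem_filter, hT, Fintype.mem_piFinset]
    rw [Nat.card_congr (Equiv.subtypeEquivRight hiff), Nat.card_eq_fintype_card, Fintype.card_coe]
  rw [hcard]
  have hWbad : ∀ t ∈ bad, (n.choose k : ℝ) * η ^ k ≤ W t := by
    intro t ht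
    rw [hbad, mem_filter] at ht
    have h1 : ∀ p ∈ S, η ≤ h p t := by
      intro p hp
      have h2 := ht.2 p hp
      have hcast : (fun i => ((α p i * t i + β p i : ℤ) : ZMod p)) =
          (fun i => (α p i : ZMod p) * (t i : ZMod p) + (β p i : ZMod p)) := by
        funext i; push_cast; rfl
      rw [hcast] at h2
      have hpp : (0 : ℝ) < (p : ℝ) ^ d := by
        have : (0 : ℝ) < p := by exact_mod_cast (hS p hp).1.pos
        positivity
      have h3 := (hS p hp).2.2.2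
      have h4 : (Nat.card (B p) : ℝ) / (p : ℝ) ^ d ≤ 1 - η := by
        rw [div_le_iff₀ hpp]; exact h3
      show η ≤ hf d α β B p _
      unfold hf
      rw [if_pos h2]
      linarith
    have h5 : ∀ K ∈ S.powersetCard k, η ^ k ≤ ∏ p ∈ K, h p t := by
      intro K hK
      rw [mem_powersetCard] at hK
      calc η ^ k = ∏ _p ∈ K, η := by rw [prod_const, hK.2]
        _ ≤ ∏ p ∈ K, h p t := prod_le_prod (fun _ _ => hη.le) (fun p hp => h1 p (hK.1 hp))
    calc (n.choose k : ℝ) * η ^ k = ∑ _K ∈ S.powersetCard k, η ^ k := by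
          rw [sum_const, card_powersetCard, nsmul_eq_mul]
      _ ≤ W t := sum_le_sum h5
  have hsq : (bad.card : ℝ) * ((n.choose k : ℝ) * η ^ k) ^ 2 ≤ ∑ t ∈ T, W t ^ 2 := by
    calc (bad.card : ℝ) * ((n.choose k : ℝ) * η ^ k) ^ 2
        = ∑ _t ∈ bad, ((n.choose k : ℝ) * η ^ k) ^ 2 := by rw [sum_const, nsmul_eq_mul]
      _ ≤ ∑ t ∈ bad, W t ^ 2 := sum_le_sum fun t ht =>
          pow_le_pow_left₀ (by positivity) (hWbad t ht) 2
      _ ≤ ∑ t ∈ T, W t ^ 2 := sum_le_sum_of_subset_of_nonneg (filter_subset _ _)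
          (fun _ _ _ => sq_nonneg _)
  have hexp : ∑ t ∈ T, W t ^ 2 = ∑ K ∈ S.powersetCard k, ∑ K' ∈ S.powersetCard k,
      ∑ t ∈ T, (∏ p ∈ K, h p t) * ∏ p ∈ K', h p t := by
    have e1 : ∀ t, W t ^ 2 = ∑ K ∈ S.powersetCard k, ∑ K' ∈ S.powersetCard k,
        (∏ p ∈ K, h p t) * ∏ p ∈ K', h p t := by
      intro t
      rw [sq, hW]
      exact Finset.sum_mul_sum _ _ _ _
    simp only [e1]
    rw [Finset.sum_comm]
    refine sum_congr rfl fun K _ => ?_
    rw [Finset.sum_comm]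
  have hTcard : (T.card : ℝ) = (L : ℝ) ^ d := by
    rw [hT, Fintype.card_piFinset]; simp
  have hprodabs : ∀ K ∈ S.powersetCard k, ∀ t, |∏ p ∈ K, h p t| ≤ 1 := by
    intro K hK t
    rw [Finset.abs_prod]
    exact prod_le_one (fun _ _ => abs_nonneg _)
      (fun p hp => hhabs p ((mem_powersetCard.1 hK).1 hp) t)
  have hdiag : ∀ K ∈ S.powersetCard k, ∑ t ∈ T, (∏ p ∈ K, h p t) * ∏ p ∈ K, h p t ≤
      (L : ℝ) ^ d := by
    intro K hK
    calc ∑ t ∈ T, (∏ p ∈ K, h p t) * ∏ p ∈ K, h p t ≤ ∑ _t ∈ T, (1 : ℝ) := by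
          refine sum_le_sum fun t _ => ?_
          have h1 := hprodabs K hK t
          have h2 := abs_le.1 h1
          nlinarith
      _ = (L : ℝ) ^ d := by rw [sum_const, nsmul_eq_mul, hTcard, mul_one]
  have hoff : ∀ K ∈ S.powersetCard k, ∀ K' ∈ S.powersetCard k, K ≠ K' →
      ∑ t ∈ T, (∏ p ∈ K, h p t) * ∏ p ∈ K', h p t ≤ d * (X : ℝ) ^ (2 * k) * (L : ℝ) ^ (d - 1) := by
    intro K hK K' hK' hKK
    rw [mem_powersetCard] at hK hK'
    obtain ⟨p₀, hp₀, hp₀'⟩ : ∃ p₀ ∈ K, p₀ ∉ K' := by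
      by_contra hcon
      push Not at hcon
      exact hKK (Finset.eq_of_subset_of_card_le hcon (by omega))
    set U := K ∪ K' with hU
    have hUS : U ⊆ S := union_subset hK.1 hK'.1
    let G : (p : ℕ) → (Fin d → ZMod p) → ℝ := fun p y =>
      (if p ∈ K then hf d α β B p y else 1) * (if p ∈ K' then hf d α β B p y else 1)
    have : NeZero p₀ := hne p₀ (hK.1 hp₀)
    have hG : ∀ p ∈ U, ∀ y, |G p y| ≤ 1 := by
      intro p hp y
      have := hne p (hUS hp)
      have h1 := hf_abs d α β B p y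
      show |(if p ∈ K then hf d α β B p y else 1) * (if p ∈ K' then hf d α β B p y else 1)| ≤ 1
      rw [abs_mul]
      have h2 : |(if p ∈ K then hf d α β B p y else 1)| ≤ 1 := by split_ifs <;> simp [h1]
      have h3 : |(if p ∈ K' then hf d α β B p y else 1)| ≤ 1 := by split_ifs <;> simp [h1]
      exact mul_le_one₀ h2 (abs_nonneg _) h3
    have hG0 : ∑ y, G p₀ y = 0 := by
      have : ∀ y, G p₀ y = hf d α β B p₀ y := by
        intro y
        show (if p₀ ∈ K then hf d α β B p₀ y else 1) * (if p₀ ∈ K' then hf d α β B p₀ y else 1) = _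
        rw [if_pos hp₀, if_neg hp₀', mul_one]
      simp only [this]
      exact hf_sum d α β B p₀ (hS p₀ (hK.1 hp₀)).1 (hS p₀ (hK.1 hp₀)).2.2.1
    have hk := key d U (fun p hp => (hS p (hUS hp)).1) L G hG p₀ (mem_union_left _ hp₀) hG0
    have hprod : ∀ t : Fin d → ℕ, (∏ p ∈ K, h p t) * ∏ p ∈ K', h p t =
        ∏ p ∈ U, G p (fun i => (t i : ZMod p)) := by
      intro t
      have e1 : ∏ p ∈ K, h p t = ∏ p ∈ U, (if p ∈ K then h p t else 1) := by
        rw [Finset.prod_ite_mem, hU]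
        congr 1
        rw [Finset.inter_comm]
        exact (Finset.inter_eq_left.2 subset_union_left).symm
      have e2 : ∏ p ∈ K', h p t = ∏ p ∈ U, (if p ∈ K' then h p t else 1) := by
        rw [Finset.prod_ite_mem, hU]
        congr 1
        rw [Finset.inter_comm]
        exact (Finset.inter_eq_left.2 subset_union_right).symm
      rw [e1, e2, ← Finset.prod_mul_distrib]
    simp only [hprod]
    refine (le_abs_self _).trans (hk.trans ?_)
    have hX : 1 ≤ (X : ℝ) := by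
      have h1 := (hS p₀ (hK.1 hp₀)).1.one_lt
      have h2 := (hS p₀ (hK.1 hp₀)).2.1
      exact_mod_cast (by omega : 1 ≤ X)
    have hprodX : ∏ p ∈ U, (p : ℝ) ≤ (X : ℝ) ^ (2 * k) := by
      calc ∏ p ∈ U, (p : ℝ) ≤ ∏ _p ∈ U, (X : ℝ) :=
            prod_le_prod (fun _ _ => by positivity)
              (fun p hp => by exact_mod_cast (hS p (hUS hp)).2.1)
        _ = (X : ℝ) ^ U.card := by rw [prod_const]
        _ ≤ (X : ℝ) ^ (2 * k) := by
            refine pow_le_pow_right₀ hX ?_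
            calc U.card ≤ K.card + K'.card := card_union_le _ _
              _ = 2 * k := by omega
    gcongr
  have htot : ∑ t ∈ T, W t ^ 2 ≤ (n.choose k : ℝ) * (L : ℝ) ^ d +
      (n.choose k : ℝ) ^ 2 * (d * (X : ℝ) ^ (2 * k) * (L : ℝ) ^ (d - 1)) := by
    rw [hexp]
    have h1 : ∀ K ∈ S.powersetCard k, ∑ K' ∈ S.powersetCard k,
        ∑ t ∈ T, (∏ p ∈ K, h p t) * ∏ p ∈ K', h p t ≤
        (L : ℝ) ^ d + (n.choose k : ℝ) * (d * (X : ℝ) ^ (2 * k) * (L : ℝ) ^ (d - 1)) := by
      intro K hK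
      have h2 : ∀ K' ∈ S.powersetCard k, ∑ t ∈ T, (∏ p ∈ K, h p t) * ∏ p ∈ K', h p t ≤
          (if K' = K then (L : ℝ) ^ d else 0) + d * (X : ℝ) ^ (2 * k) * (L : ℝ) ^ (d - 1) := by
        intro K' hK'
        by_cases e : K' = K
        · subst e
          rw [if_pos rfl]
          have := hdiag K' hK'
          have h3 : (0 : ℝ) ≤ d * (X : ℝ) ^ (2 * k) * (L : ℝ) ^ (d - 1) := by positivity
          linarith
        · rw [if_neg e, zero_add]
          exact hoff K hK K' hK' (fun h => e h.symm)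
      refine (sum_le_sum h2).trans ?_
      rw [sum_add_distrib, sum_ite_eq' , if_pos hK, sum_const, card_powersetCard, nsmul_eq_mul]
    refine (sum_le_sum h1).trans ?_
    rw [sum_const, card_powersetCard, nsmul_eq_mul]
    apply le_of_eq
    ring
  calc (bad.card : ℝ) * (η ^ (2 * k) * (n.choose k : ℝ) ^ 2)
      = (bad.card : ℝ) * ((n.choose k : ℝ) * η ^ k) ^ 2 := by ring
    _ ≤ _ := hsq.trans htot

end Pool.Agent.H582R4.MOM
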